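import Pool.Agent.Lib_helper7.TB.Mult

/-!
# Tate classes at all primes and the determinants of the constituents at one prime
-/

set_option autoImplicit false

namespace Pool.Agent.TBL

open NumberField Pool.Agent.TT Pool.Agent.TB Polynomial

/-- The `j`-th Tate twist of `ρ`. -/
noncomputable def twist {K : Type} [Field K] [Algebra K Qbar] {p : ℕ} [Fact p.Prime] {d : ℕ}
    (ρ : (Qbar ≃ₐ[K] Qbar) →* Matrix (Fin d) (Fin d) ℂ_[p]) (j : ℕ) :
    (Qbar ≃ₐ[K] Qbar) →* Matrix (Fin d) (Fin d) ℂ_[p] where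
  toFun σ := cycC p σ ^ j • ρ σ
  map_one' := by rw [cycC_one, one_pow, one_smul, map_one]
  map_mul' σ τ := by
    rw [cycC_mul, mul_pow, map_mul, smul_mul_smul_comm]

/-- The dimension of a Tate subquotient at `ℓ` is at most the sum of the dimensions of the
constituents at `p` whose twisted determinants have finite order. -/
theorem main {K : Type} [Field K] [NumberField K] [Algebra K Qbar] {E : Type} [Field E]
    {p ℓ : ℕ} [Fact p.Prime] [Fact ℓ.Prime] (ip : E →+* ℂ_[p]) (il : E →+* PadicAlgCl ℓ) {r : ℕ}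
    (d : Fin r → ℕ) (ρ : (i : Fin r) → (Qbar ≃ₐ[K] Qbar) →* Matrix (Fin (d i)) (Fin (d i)) ℂ_[p])
    (hc : ∀ i, Continuous (ρ i))
    (hirr : ∀ i, ∀ W : Submodule ℂ_[p] (Fin (d i) → ℂ_[p]),
      (∀ σ, ∀ w ∈ W, (ρ i σ).mulVec w ∈ W) → W = ⊥ ∨ W = ⊤)
    {V : Type} [AddCommGroup V] [Module (PadicAlgCl ℓ) V] [Module.Finite (PadicAlgCl ℓ) V]
    (π : Representation (PadicAlgCl ℓ) (Qbar ≃ₐ[K] Qbar) V) (hcomp : Compatible ip il d ρ π)
    (j : ℕ) (I : Finset (Fin r))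
    (hdet : ∀ i ∉ I, ∀ m : ℕ, 0 < m → ∃ σ, (cycC p σ ^ (j * d i) * (ρ i σ).det) ^ m ≠ 1)
    (H : Subgroup (Qbar ≃ₐ[K] Qbar)) (hH : IsOpen (H : Set (Qbar ≃ₐ[K] Qbar)))
    (W₁ W₂ : Submodule (PadicAlgCl ℓ) V)
    (hT : ∀ s ∈ H, ∀ x ∈ W₂, cyc ℓ s ^ j • π s x - x ∈ W₁) :
    Module.finrank (PadicAlgCl ℓ) W₂ ≤ Module.finrank (PadicAlgCl ℓ) W₁ + ∑ i ∈ I, d i := by
  have hac : Algebra.IsAlgebraic K Qbar := by
    have : Algebra.IsAlgebraic ℚ Qbar := AlgebraicClosure.isAlgebraic ℚ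
    exact Algebra.IsAlgebraic.tower_top (K := ℚ) K
  have hgal : IsGalois K Qbar := by
    have : Algebra.IsSeparable K Qbar := inferInstance
    have : Normal K Qbar := by
      have : IsAlgClosed Qbar := inferInstance
      have : IsAlgClosure K Qbar := ⟨this, hac⟩
      exact IsAlgClosure.normal K Qbar
    exact {}
  have hp : p.Prime := Fact.out
  have hp0 : (p : ℂ_[p]) ≠ 0 := by exact_mod_cast hp.ne_zero
  have hp1 : ‖(p : ℂ_[p])‖ < 1 := by
    have h2 : (p : ℂ_[p]) = algebraMap ℚ_[p] ℂ_[p] (p : ℚ_[p]) := by simp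
    rw [h2, norm_algebraMap', Padic.norm_p]
    exact inv_lt_one_of_one_lt₀ (by exact_mod_cast hp.one_lt)
  have hA : ∀ i, Continuous (twist (ρ i) j) := by
    intro i
    have h3 : Continuous fun σ : Qbar ≃ₐ[K] Qbar => cycC p σ ^ j • ρ i σ :=
      ((cycC_continuous (K := K) (p := p)).pow j).smul (hc i)
    exact h3
  have hI : ∀ i, ∀ W : Submodule ℂ_[p] (Fin (d i) → ℂ_[p]),
      (∀ σ, ∀ w ∈ W, (twist (ρ i) j σ).mulVec w ∈ W) → W = ⊥ ∨ W = ⊤ := by
    intro i W hW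
    refine hirr i W fun σ w hw => ?_
    have h3 := hW σ w hw
    have h4 : (twist (ρ i) j σ).mulVec w = cycC p σ ^ j • (ρ i σ).mulVec w := by
      show (cycC p σ ^ j • ρ i σ).mulVec w = _
      rw [Matrix.smul_mulVec]
    rw [h4] at h3
    have h5 := W.smul_mem (cycC p σ ^ j)⁻¹ h3
    rwa [smul_smul, inv_mul_cancel₀ (pow_ne_zero _ (cycC_ne_zero σ)), one_smul] at h5
  obtain ⟨g0, hg0, h2⟩ := exists_generic (k := ℂ_[p]) (G := Qbar ≃ₐ[K] Qbar) hp0 hp1
    (fun i => twist (ρ i) j) hA hI H hH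
  have h1 := tate_mult ip il d ρ hc π hcomp j H hH W₁ W₂ hT g0 hg0
  refine h1.trans (Nat.add_le_add_left ?_ _)
  classical
  rw [← Finset.sum_subset (Finset.subset_univ I)]
  · exact Finset.sum_le_sum fun i _ => mult_le_dim _
  · intro i _ hi
    rcases h2 i with h3 | ⟨m, hm, h3⟩
    · exact h3
    · exfalso
      obtain ⟨σ, hσ⟩ := hdet i hi m hm
      apply hσ
      have h4 := h3 σ
      have h5 : (twist (ρ i) j σ).det = cycC p σ ^ (j * d i) * (ρ i σ).det := by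
        show (cycC p σ ^ j • ρ i σ).det = _
        rw [Matrix.det_smul, Fintype.card_fin, pow_mul]
      rwa [h5] at h4

end Pool.Agent.TBL
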