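import Pool.Agent.Lib_helper7.TB.Coef

/-!
# The Lie algebra spanned by the logarithms (MP_97f789_ag, TB)
-/

set_option autoImplicit false

namespace Pool.Agent.TBL

open Filter Topology Polynomial

section

variable {k : Type*} [NontriviallyNormedField k] [IsUltrametricDist k] [CompleteSpace k]
  {n : Type*} [Fintype n] [DecidableEq n]

attribute [local instance] matRing matAlg matUltra matComplete

variable {G : Type*} [Group G] (A : G →* Matrix n n k) (N : Subgroup G)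

/-- The span of the logarithms. -/
noncomputable def sp (p : ℕ) : Submodule k (Matrix n n k) :=
  Submodule.span k {x | ∃ h ∈ N, x = lg k p (A h)}

theorem lg_mem_sp (p : ℕ) {h : G} (hh : h ∈ N) : lg k p (A h) ∈ sp A N p :=
  Submodule.subset_span ⟨h, hh, rfl⟩

theorem dq_conj (p : ℕ) (g h : G) (m : ℕ) :
    dq k p (A (g * h * g⁻¹)) m = A g * dq k p (A h) m * A g⁻¹ := by
  have h1 : A (g * h * g⁻¹) ^ p ^ m = A g * A h ^ p ^ m * A g⁻¹ := by
    rw [← map_pow, conj_pow, map_mul, map_mul, map_pow]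
  have h2 : A g * A g⁻¹ = 1 := by rw [← map_mul, mul_inv_cancel, map_one]
  rw [dq, dq, h1, mul_smul_comm, smul_mul_assoc, mul_sub, sub_mul, mul_one, h2]

theorem lg_conj {p : ℕ} (hp0 : (p : k) ≠ 0) (hp : ‖(p : k)‖ < 1) (hn : N.Normal)
    (hN : ∀ h ∈ N, ‖A h - 1‖ ≤ ‖(p : k)‖ ^ 2) {h : G} (hh : h ∈ N) (g : G) :
    lg k p (A (g * h * g⁻¹)) = A g * lg k p (A h) * A g⁻¹ := by
  have h1 := tendsto_dq (k := k) hp0 hp (hN _ (hn.conj_mem h hh g))
  have h2 := tendsto_dq (k := k) hp0 hp (hN _ hh)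
  have h3 : Tendsto (fun m => A g * dq k p (A h) m * A g⁻¹) atTop
      (𝓝 (A g * lg k p (A h) * A g⁻¹)) := (h2.const_mul (A g)).mul_const (A g⁻¹)
  refine tendsto_nhds_unique h1 (h3.congr fun m => ?_)
  rw [dq_conj]

theorem sp_conj {p : ℕ} (hp0 : (p : k) ≠ 0) (hp : ‖(p : k)‖ < 1) (hn : N.Normal)
    (hN : ∀ h ∈ N, ‖A h - 1‖ ≤ ‖(p : k)‖ ^ 2) (g : G) {x : Matrix n n k} (hx : x ∈ sp A N p) :
    A g * x * A g⁻¹ ∈ sp A N p := by
  induction hx using Submodule.span_induction with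
  | mem x hx =>
    obtain ⟨h, hh, rfl⟩ := hx
    rw [← lg_conj A N hp0 hp hn hN hh]
    exact lg_mem_sp A N p (hn.conj_mem h hh g)
  | zero => simp
  | add x y _ _ hx hy =>
    rw [mul_add, add_mul]
    exact add_mem hx hy
  | smul c x _ hx =>
    rw [mul_smul_comm, smul_mul_assoc]
    exact Submodule.smul_mem _ _ hx

theorem isClosed_submodule (W : Submodule k (Matrix n n k)) :
    IsClosed (W : Set (Matrix n n k)) :=
  Submodule.closed_of_finiteDimensional W

theorem sp_bracket {p : ℕ} (hp0 : (p : k) ≠ 0) (hp : ‖(p : k)‖ < 1) (hn : N.Normal)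
    (hN : ∀ h ∈ N, ‖A h - 1‖ ≤ ‖(p : k)‖ ^ 2) {x y : Matrix n n k} (hx : x ∈ sp A N p)
    (hy : y ∈ sp A N p) : x * y - y * x ∈ sp A N p := by
  induction hx using Submodule.span_induction with
  | mem x hx =>
    obtain ⟨g, hg, rfl⟩ := hx
    have h1 := tendsto_dq (k := k) hp0 hp (hN _ hg)
    have h2 := tendsto_pow_pow (k := k) hp (hN _ (N.inv_mem hg))
    have h3 : Tendsto (fun m => (dq k p (A g) m * y - y * dq k p (A g) m) * A g⁻¹ ^ p ^ m) atTop
        (𝓝 ((lg k p (A g) * y - y * lg k p (A g)) * 1)) :=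
      ((h1.mul_const y).sub (h1.const_mul y)).mul h2
    rw [mul_one] at h3
    refine (isClosed_submodule (sp A N p)).mem_of_tendsto h3 (Eventually.of_forall fun m => ?_)
    have h4 : A g ^ p ^ m * A g⁻¹ ^ p ^ m = 1 := by
      rw [← map_pow, ← map_pow, ← map_mul, inv_pow, mul_inv_cancel, map_one]
    have h5 : (dq k p (A g) m * y - y * dq k p (A g) m) * A g⁻¹ ^ p ^ m =
        ((p : k) ^ m)⁻¹ • (A (g ^ p ^ m) * y * A (g ^ p ^ m)⁻¹ - y) := by
      have h6 : A (g ^ p ^ m)⁻¹ = A g⁻¹ ^ p ^ m := by rw [← inv_pow, map_pow]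
      rw [dq, smul_mul_assoc, mul_smul_comm, ← smul_sub, smul_mul_assoc, h6, map_pow]
      congr 1
      calc ((A g ^ p ^ m - 1) * y - y * (A g ^ p ^ m - 1)) * A g⁻¹ ^ p ^ m
          = A g ^ p ^ m * y * A g⁻¹ ^ p ^ m - y * (A g ^ p ^ m * A g⁻¹ ^ p ^ m) := by noncomm_ring
        _ = _ := by rw [h4, mul_one]
    show _ ∈ sp A N p
    rw [h5]
    refine Submodule.smul_mem _ _ (sub_mem ?_ hy)
    exact sp_conj A N hp0 hp hn hN _ hy
  | zero => simp
  | add x z _ _ hx hz =>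
    have : (x + z) * y - y * (x + z) = (x * y - y * x) + (z * y - y * z) := by
      rw [add_mul, mul_add]; abel
    rw [this]
    exact add_mem hx hz
  | smul c x _ hx =>
    have : (c • x) * y - y * (c • x) = c • (x * y - y * x) := by
      rw [smul_mul_assoc, mul_smul_comm, smul_sub]
    rw [this]
    exact Submodule.smul_mem _ _ hx

/-- If the trace vanishes on the span of the logarithms, then the determinants are trivial. -/
theorem det_eq_one {p : ℕ} (hp0 : (p : k) ≠ 0) (hp : ‖(p : k)‖ < 1) {g : G}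
    (hN : ‖A g - 1‖ ≤ ‖(p : k)‖ ^ 2) (hd : ‖(A g).det - 1‖ ≤ ‖(p : k)‖ ^ 2)
    (ht : (lg k p (A g)).trace = 0) : (A g).det = 1 := by
  refine eq_one_of_lg hp0 hp hd ?_
  have h1 := tendsto_dq (k := k) hp0 hp hN
  have h2 := tendsto_dq (k := k) hp0 hp hd
  have hf : HasFDerivWithinAt (fun M : Matrix n n k => M.det)
      (fderiv k (fun M : Matrix n n k => M.det) 1) Set.univ 1 :=
    ((differentiable_det (k := k) (n := n) 1).hasFDerivAt).hasFDerivWithinAt
  have h3 : Tendsto (fun m => A g ^ p ^ m - 1) atTop (𝓝 0) := by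
    have := (tendsto_pow_pow (k := k) hp hN).sub_const (1 : Matrix n n k)
    rwa [sub_self] at this
  have h4 := hf.lim (c := fun m => ((p : k) ^ m)⁻¹) h3 (Eventually.of_forall fun _ => trivial) h1
  rw [fderiv_det_one, ht] at h4
  refine tendsto_nhds_unique h2 (h4.congr fun m => ?_)
  simp only [dq, add_sub_cancel, Matrix.det_pow, Matrix.det_one]

end

end Pool.Agent.TBL
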