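import Pool.Agent.Lib_helper7.TB.Mat

/-!
# Coefficients of the characteristic polynomial as differentiable functions (MP_97f789_ag, TB)
-/

set_option autoImplicit false

namespace Pool.Agent.TBL

open Filter Topology Polynomial

section

variable {k : Type*} [NontriviallyNormedField k] [IsUltrametricDist k] {n : Type*} [Fintype n]
  [DecidableEq n]

attribute [local instance] matRing matAlg

theorem differentiable_entry (i j : n) : Differentiable k (fun M : Matrix n n k => M i j) := by
  have h : Differentiable k (fun M : n → n → k => M i j) := by fun_prop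
  exact h

theorem differentiable_mvPolynomial (P : MvPolynomial (n × n) k) :
    Differentiable k (fun M : Matrix n n k => MvPolynomial.eval (fun ij => M ij.1 ij.2) P) := by
  induction P using MvPolynomial.induction_on with
  | C a => simp
  | add P Q hP hQ =>
    have h : (fun M : Matrix n n k => MvPolynomial.eval (fun ij => M ij.1 ij.2) (P + Q)) =
        (fun M : Matrix n n k => MvPolynomial.eval (fun ij => M ij.1 ij.2) P) +
        fun M : Matrix n n k => MvPolynomial.eval (fun ij => M ij.1 ij.2) Q := by
      ext M
      simp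
    rw [h]
    exact hP.add hQ
  | mul_X P i hP =>
    have h : (fun M : Matrix n n k => MvPolynomial.eval (fun ij => M ij.1 ij.2)
        (P * MvPolynomial.X i)) =
        (fun M : Matrix n n k => MvPolynomial.eval (fun ij => M ij.1 ij.2) P) *
        fun M : Matrix n n k => M i.1 i.2 := by
      ext M
      simp
    rw [h]
    exact hP.mul (differentiable_entry i.1 i.2)

theorem charpoly_coeff_eq (M : Matrix n n k) (i : ℕ) : M.charpoly.coeff i =
    MvPolynomial.eval (fun ij => M ij.1 ij.2) ((Matrix.charpoly.univ k n).coeff i) := by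
  have h := Matrix.charpoly.univ_coeff_eval₂Hom n (RingHom.id k) (fun ij : n × n => M ij.1 ij.2) i
  have h1 : Matrix.of (Function.curry fun ij : n × n => M ij.1 ij.2) = M := rfl
  rw [h1] at h
  rw [← h]
  rfl

theorem differentiable_charpoly_coeff (i : ℕ) :
    Differentiable k (fun M : Matrix n n k => M.charpoly.coeff i) := by
  simp_rw [charpoly_coeff_eq]
  exact differentiable_mvPolynomial _

/-- The `i`-th coefficient of the characteristic polynomial of `M - 1`. -/
noncomputable def cf (i : ℕ) (M : Matrix n n k) : k := (M - 1).charpoly.coeff i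

theorem differentiable_cf (i : ℕ) : Differentiable k (cf i : Matrix n n k → k) :=
  (differentiable_charpoly_coeff (k := k) (n := n) i).comp
    ((differentiable_id (𝕜 := k) (E := Matrix n n k)).sub_const (1 : Matrix n n k))

theorem differentiable_det : Differentiable k (fun M : Matrix n n k => M.det) := by
  have h : (fun M : Matrix n n k => M.det) =
      fun M => (-1) ^ Fintype.card n * M.charpoly.coeff 0 := by
    ext M
    exact Matrix.det_eq_sign_charpoly_coeff M
  rw [h]
  exact (differentiable_charpoly_coeff 0).const_mul _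

/-- The derivative of the determinant at `1` is the trace. -/
theorem fderiv_det_one (Y : Matrix n n k) :
    fderiv k (fun M : Matrix n n k => M.det) 1 Y = Y.trace := by
  have h1 := (differentiable_det (k := k) (n := n) 1).hasFDerivAt
  have hc : HasDerivAt (fun e : k => (1 : Matrix n n k) + e • Y) Y 0 := by
    have := ((hasDerivAt_id (0 : k)).smul_const Y).const_add (1 : Matrix n n k)
    rw [one_smul] at this
    exact this
  have h2 : HasDerivAt (fun e : k => ((1 : Matrix n n k) + e • Y).det)
      (fderiv k (fun M : Matrix n n k => M.det) 1 Y) 0 := by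
    have h3 : HasFDerivAt (fun M : Matrix n n k => M.det)
      (fderiv k (fun M : Matrix n n k => M.det) 1) ((1 : Matrix n n k) + (0 : k) • Y) := by
      simpa using h1
    exact h3.comp_hasDerivAt (0 : k) hc
  have h4 : HasDerivAt (fun e : k => ((1 : Matrix n n k) + e • Y).det) Y.trace 0 := by
    have h5 : (fun e : k => ((1 : Matrix n n k) + e • Y).det) = fun e : k =>
        (1 + C Y.trace * X +
          (Matrix.det (1 + (X : k[X]) • Y.map C)).divX.divX * X ^ 2 : k[X]).eval e := by
      ext e
      rw [Matrix.det_one_add_smul]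
      simp
    rw [h5]
    convert! Polynomial.hasDerivAt (𝕜 := k) _ (0 : k) using 1
    simp [Polynomial.derivative_mul]
  exact h2.unique h4

/-- The characteristic polynomial of `s N + e`. -/
theorem charpoly_smul_add [Infinite k] (N : Matrix n n k) (s e : k) (hs : s ≠ 0) :
    (s • N + e • 1).charpoly = ∑ j ∈ Finset.range (Fintype.card n + 1),
      C (N.charpoly.coeff j * s ^ (Fintype.card n - j)) * (X - C e) ^ j := by
  refine Polynomial.funext fun x => ?_
  rw [Matrix.eval_charpoly, Polynomial.eval_finsetSum]
  have h1 : (Matrix.scalar n x - (s • N + e • 1)) =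
      s • (Matrix.scalar n ((x - e) / s) - N) := by
    ext i j
    by_cases hij : i = j
    · subst hij
      simp
      field_simp
      ring
    · simp [hij]
  rw [h1, Matrix.det_smul, ← Matrix.eval_charpoly, Polynomial.eval_eq_sum_range,
    Matrix.charpoly_natDegree_eq_dim, Finset.mul_sum]
  refine Finset.sum_congr rfl fun j hj => ?_
  have hj' : j ≤ Fintype.card n := Nat.lt_succ_iff.1 (Finset.mem_range.1 hj)
  obtain ⟨c, hc⟩ := Nat.exists_eq_add_of_le hj'
  simp only [eval_mul, eval_C, eval_pow, eval_sub, eval_X, div_pow]
  rw [hc, Nat.add_sub_cancel_left, pow_add]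
  field_simp

theorem coeff_one_aux (a b : ℕ) : ((1 + X : k[X]) ^ a * (-X) ^ b).coeff 1 =
    if b = 1 then -1 else if b = 0 then (a : k) else 0 := by
  rcases b with _ | _ | b
  · have := Polynomial.coeff_one_add_X_pow k a 1
    simpa using this
  · have h : ((1 + X : k[X]) ^ a * (-X) ^ (0 + 1)) = -((1 + X : k[X]) ^ a * X) := by ring
    rw [h, coeff_neg, show (1 : ℕ) = 0 + 1 from rfl, coeff_mul_X, coeff_zero_eq_eval_zero]
    simp
  · have h : ((1 + X : k[X]) ^ a * (-X) ^ (b + 1 + 1)) =
        ((1 + X : k[X]) ^ a * (-X) ^ b) * X ^ 2 := by ring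
    rw [h, coeff_mul_X_pow']
    simp

/-- First-order perturbation in the direction of scalars. -/
theorem fderiv_cf_self [Infinite k] {M : Matrix n n k} {m : ℕ}
    (h0 : ∀ i ≤ m, cf i M = 0) :
    fderiv k (cf m : Matrix n n k → k) M M = -((m + 1 : ℕ) : k) * cf (m + 1) M := by
  set N := M - 1 with hN
  set d := Fintype.card n with hd
  have h1 := (differentiable_cf (k := k) (n := n) m M).hasFDerivAt
  have hc : HasDerivAt (fun e : k => M + e • M) M 0 := by
    have := ((hasDerivAt_id (0 : k)).smul_const M).const_add M
    rw [one_smul] at this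
    exact this
  have h2 : HasDerivAt (fun e : k => cf m (M + e • M))
      (fderiv k (cf m : Matrix n n k → k) M M) 0 := by
    have h3 : HasFDerivAt (cf m : Matrix n n k → k)
      (fderiv k (cf m : Matrix n n k → k) M) (M + (0 : k) • M) := by
      simpa using h1
    exact h3.comp_hasDerivAt (0 : k) hc
  set Q : k[X] := ∑ j ∈ Finset.range (d + 1), C (N.charpoly.coeff j * (j.choose m : k)) *
    ((1 + X) ^ (d - j) * (-X) ^ (j - m)) with hQ
  have h4 : ∀ e : k, e ≠ -1 → cf m (M + e • M) = Q.eval e := by
    intro e he
    have h5 : M + e • M - 1 = (1 + e) • N + e • 1 := by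
      rw [hN, smul_sub, add_smul, add_smul, one_smul, one_smul]
      abel
    have h6 : (1 + e) ≠ 0 := fun h => he (by linear_combination h)
    rw [cf, h5, charpoly_smul_add N (1 + e) e h6, finsetSum_coeff, hQ, eval_finsetSum]
    refine Finset.sum_congr rfl fun j _ => ?_
    have h7 : (X - C e : k[X]) ^ j = (X + C (-e)) ^ j := by rw [C_neg, sub_eq_add_neg]
    rw [coeff_C_mul, h7, coeff_X_add_C_pow]
    simp only [eval_mul, eval_C, eval_pow, eval_add, eval_one, eval_X, eval_neg]
    ring
  have h8 : HasDerivAt (fun e : k => cf m (M + e • M)) (Q.derivative.eval 0) 0 := by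
    refine (Polynomial.hasDerivAt Q (0 : k)).congr_of_eventuallyEq ?_
    have h9 : ∀ᶠ e : k in 𝓝 0, e ≠ -1 := by
      refine isOpen_ne.mem_nhds ?_
      simp
    exact h9.mono fun e he => h4 e he
  have h10 : Q.derivative.eval 0 = Q.coeff 1 := by
    rw [← coeff_zero_eq_eval_zero, coeff_derivative]
    simp
  rw [h2.unique h8, h10, hQ, finsetSum_coeff]
  have hz : ∀ i ≤ m, N.charpoly.coeff i = 0 := h0
  rw [Finset.sum_eq_single (m + 1)]
  · rw [coeff_C_mul, coeff_one_aux, cf, ← hN]
    simp
    ring
  · intro j _ hj
    rw [coeff_C_mul, coeff_one_aux]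
    rcases Nat.lt_or_ge m j with h | h
    · have h11 : j - m ≠ 1 := fun h' => hj (by omega)
      have h12 : j - m ≠ 0 := by omega
      simp [h11, h12]
    · rw [hz j h]
      simp
  · intro h
    have h11 : N.charpoly.coeff (m + 1) = 0 := by
      refine coeff_eq_zero_of_natDegree_lt ?_
      rw [Matrix.charpoly_natDegree_eq_dim]
      rw [Finset.mem_range] at h
      omega
    rw [h11]
    simp

end

end Pool.Agent.TBL
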