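import Pool.Agent.Lib_helper7.TB.Pert
import Pool.Agent.Lib_helper9.TB.B4

/-!
# Representations whose elements have the eigenvalue one (MP_97f789_ag, TB)
-/

set_option autoImplicit false

namespace Pool.Agent.TBL

open Filter Topology Polynomial

attribute [local instance 100] LieRing.ofAssociativeRing

section

variable {k : Type*} [NontriviallyNormedField k] [IsUltrametricDist k] [CompleteSpace k]

attribute [local instance] matRing matAlg matUltra matComplete

section

variable {n : Type*} [Fintype n] [DecidableEq n] {G : Type*} [Group G] (A : G →* Matrix n n k)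
  (N : Subgroup G)

/-- If the trace does not vanish on the span of the logarithms, the identity is in it. -/
theorem one_mem_sp [CharZero k] [IsAlgClosed k] {p : ℕ} (hp0 : (p : k) ≠ 0)
    (hp : ‖(p : k)‖ < 1) (hn : N.Normal) (hN : ∀ h ∈ N, ‖A h - 1‖ ≤ ‖(p : k)‖ ^ 2)
    (hirr : ∀ W : Submodule k (n → k), (∀ g, ∀ w ∈ W, (A g).mulVec w ∈ W) → W = ⊥ ∨ W = ⊤)
    (htr : ∃ x ∈ sp A N p, x.trace ≠ 0) : (1 : Matrix n n k) ∈ sp A N p := by
  set e : Matrix n n k ≃ₐ[k] Module.End k (n → k) := Matrix.toLinAlgEquiv' with he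
  let S : LieSubalgebra k (Module.End k (n → k)) :=
    { (sp A N p).map e.toLinearMap with
      lie_mem' := by
        rintro _ _ ⟨x, hx, rfl⟩ ⟨y, hy, rfl⟩
        refine ⟨x * y - y * x, sp_bracket A N hp0 hp hn hN hx hy, ?_⟩
        simp only [AlgEquiv.toLinearMap_apply, map_sub, map_mul, Ring.lie_def] }
  have hmem : ∀ x : Matrix n n k, e x ∈ S ↔ x ∈ sp A N p := by
    intro x
    constructor
    · rintro ⟨y, hy, hxy⟩
      have : y = x := e.injective hxy
      rwa [← this]
    · intro hx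
      exact ⟨x, hx, rfl⟩
  let rho : Representation k G (n → k) := (e : Matrix n n k →* Module.End k (n → k)).comp A
  have hrho : ∀ g, rho g = e (A g) := fun g => rfl
  rw [← hmem, map_one]
  refine Pool.Agent.TB.one_mem rho ?_ S ?_ ?_
  · intro W hW
    refine hirr W fun g w hw => ?_
    have := hW g w hw
    rw [hrho] at this
    exact this
  · rintro g _ ⟨x, hx, rfl⟩
    rw [hrho, hrho]
    show e (A g) * e x * e (A g⁻¹) ∈ S
    rw [← map_mul, ← map_mul, hmem]
    exact sp_conj A N hp0 hp hn hN g hx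
  · obtain ⟨x, hx, hx0⟩ := htr
    refine ⟨e x, (hmem x).2 hx, ?_⟩
    have h1 : e x = Matrix.toLin' x := rfl
    rw [h1, Matrix.trace_toLin'_eq]
    exact hx0

end

variable {G : Type*} [Group G] [TopologicalSpace G] [IsTopologicalGroup G] [CompactSpace G]
  [TotallyDisconnectedSpace G]

/-- Continuous irreducible representations of a profinite group over a complete algebraically
closed `p`-adic field: some element of any open subgroup does not have the eigenvalue `1` in any of
those whose determinants have infinite order. -/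
theorem exists_generic [CharZero k] [IsAlgClosed k] {p : ℕ} (hp0 : (p : k) ≠ 0)
    (hp : ‖(p : k)‖ < 1) {r : ℕ} {d : Fin r → ℕ}
    (A : (i : Fin r) → G →* Matrix (Fin (d i)) (Fin (d i)) k) (hA : ∀ i, Continuous (A i))
    (hirr : ∀ i, ∀ W : Submodule k (Fin (d i) → k),
      (∀ g, ∀ w ∈ W, (A i g).mulVec w ∈ W) → W = ⊥ ∨ W = ⊤)
    (H : Subgroup G) (hH : IsOpen (H : Set G)) :
    ∃ g0 ∈ H, ∀ i, mult (A i g0) = 0 ∨ ∃ m : ℕ, 0 < m ∧ ∀ g, (A i g).det ^ m = 1 := by
  classical
  -- an element with minimal total multiplicity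
  obtain ⟨g0, hg0, hmin⟩ : ∃ g0 ∈ H, ∀ h ∈ H, ∑ i, mult (A i g0) ≤ ∑ i, mult (A i h) := by
    have hex : ∃ c : ℕ, ∃ g ∈ H, ∑ i, mult (A i g) = c := ⟨_, 1, H.one_mem, rfl⟩
    obtain ⟨g, hg, hc⟩ := Nat.find_spec hex
    refine ⟨g, hg, fun h hh => ?_⟩
    rw [hc]
    exact Nat.find_min' hex ⟨h, hh, rfl⟩
  have hq : 0 < ‖(p : k)‖ ^ 2 := by positivity
  set U : Set G := (H : Set G) ∩ ⋂ j, {g | ‖A j g - 1‖ < ‖(p : k)‖ ^ 2 ∧
    ‖(A j g).det - 1‖ < ‖(p : k)‖ ^ 2 ∧ cf (mult (A j g0)) (A j g * A j g0) ≠ 0} with hU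
  have hUo : IsOpen U := by
    refine hH.inter (isOpen_iInter_of_finite fun j => ?_)
    have h1 : IsOpen {g | ‖A j g - 1‖ < ‖(p : k)‖ ^ 2} := by
      have : Continuous fun g => ‖A j g - 1‖ := ((hA j).sub continuous_const).norm
      exact isOpen_lt this continuous_const
    have h2 : IsOpen {g | ‖(A j g).det - 1‖ < ‖(p : k)‖ ^ 2} := by
      have : Continuous fun g => ‖(A j g).det - 1‖ :=
        ((hA j).matrix_det.sub continuous_const).norm
      exact isOpen_lt this continuous_const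
    have h3 : IsOpen {g | cf (mult (A j g0)) (A j g * A j g0) ≠ 0} := by
      have h4 : Continuous (cf (mult (A j g0)) : Matrix (Fin (d j)) (Fin (d j)) k → k) :=
        (differentiable_cf (k := k) (n := Fin (d j)) (mult (A j g0))).continuous
      have h5 : Continuous fun g => A j g * A j g0 := (hA j).mul continuous_const
      have : Continuous fun g => cf (mult (A j g0)) (A j g * A j g0) := h4.comp h5
      exact isOpen_ne.preimage this
    exact h1.inter (h2.inter h3)
  have hU1 : (1 : G) ∈ U := by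
    refine ⟨H.one_mem, Set.mem_iInter.2 fun j => ⟨?_, ?_, ?_⟩⟩
    · rw [map_one, sub_self, norm_zero]; exact hq
    · rw [map_one, Matrix.det_one, sub_self, norm_zero]; exact hq
    · rw [map_one, one_mul]; exact cf_mult_ne_zero _
  obtain ⟨N, hNU⟩ := ProfiniteGrp.exist_openNormalSubgroup_sub_open_nhds_of_one hUo hU1
  have hNU' : ∀ h ∈ N.toSubgroup, h ∈ U := fun h hh => hNU hh
  have hn : N.toSubgroup.Normal := N.isNormal'
  have hfi : N.toSubgroup.FiniteIndex :=
    haveI := N.toSubgroup.quotient_finite_of_isOpen N.isOpen'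
    Subgroup.finiteIndex_of_finite_quotient
  refine ⟨g0, hg0, fun i => ?_⟩
  rcases Nat.eq_zero_or_pos (mult (A i g0)) with hi | hi
  · exact Or.inl hi
  right
  have hNi : ∀ h ∈ N.toSubgroup, ‖A i h - 1‖ ≤ ‖(p : k)‖ ^ 2 := fun h hh =>
    ((Set.mem_iInter.1 (hNU' h hh).2 i).1).le
  have hmult : ∀ h ∈ N.toSubgroup, mult (A i g0) ≤ mult (A i (h * g0)) := by
    intro h hh
    by_contra hlt
    rw [not_le] at hlt
    have h1 := hmin (h * g0) (H.mul_mem (hNU' h hh).1 hg0)
    have h2 : ∑ j, mult (A j (h * g0)) < ∑ j, mult (A j g0) := by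
      refine Finset.sum_lt_sum (fun j _ => ?_) ⟨i, Finset.mem_univ i, hlt⟩
      refine mult_le ?_
      rw [map_mul]
      exact (Set.mem_iInter.1 (hNU' h hh).2 j).2.2
    omega
  have h1 := one_not_mem (A i) N.toSubgroup hp0 hp hNi hi hmult
  have htr : ∀ h ∈ N.toSubgroup, (lg k p (A i h)).trace = 0 := by
    intro h hh
    by_contra h0
    exact h1 (one_mem_sp (A i) N.toSubgroup hp0 hp hn hNi (hirr i)
      ⟨_, lg_mem_sp (A i) N.toSubgroup p hh, h0⟩)
  refine ⟨N.toSubgroup.index, Nat.pos_of_ne_zero hfi.index_ne_zero, fun g => ?_⟩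
  have h2 : g ^ N.toSubgroup.index ∈ N.toSubgroup := N.toSubgroup.pow_index_mem g
  rw [← Matrix.det_pow, ← map_pow]
  exact det_eq_one (A i) hp0 hp (hNi _ h2) ((Set.mem_iInter.1 (hNU' _ h2).2 i).2.1).le (htr _ h2)

end

end Pool.Agent.TBL
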