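import Mathlib

/-!
# The `p`-adic logarithm as a limit of powers (MP_97f789_ag, Theorem B)
-/

set_option autoImplicit false

namespace Pool.Agent.TBL

open Filter Topology

section

variable {k : Type*} [NontriviallyNormedField k]
variable {A : Type*} [NormedRing A] [NormedAlgebra k A] [IsUltrametricDist A]

theorem norm_add_le3 (x y z : A) {c : ℝ} (hx : ‖x‖ ≤ c) (hy : ‖y‖ ≤ c) (hz : ‖z‖ ≤ c) :
    ‖x + y + z‖ ≤ c :=
  (IsUltrametricDist.norm_add_le_max _ _).trans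
    (max_le ((IsUltrametricDist.norm_add_le_max _ _).trans (max_le hx hy)) hz)

theorem exists_pow_eq [IsUltrametricDist k] (x : A) (hx : ‖x‖ ≤ 1) (n : ℕ) :
    ∃ y : A, (1 + x) ^ n = 1 + (n : k) • x + x * y ∧ ‖y‖ ≤ ‖x‖ := by
  induction n with
  | zero => exact ⟨0, by simp, by simp⟩
  | succ n ih =>
    obtain ⟨y, h1, h2⟩ := ih
    refine ⟨(n : k) • x + y + y * x, ?_, ?_⟩
    · rw [pow_succ, h1]
      simp only [Nat.cast_succ, add_smul, one_smul, mul_add, add_mul, one_mul, mul_one,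
        Algebra.smul_mul_assoc, Algebra.mul_smul_comm, mul_assoc]
      abel
    · refine norm_add_le3 _ _ _ ?_ h2 ?_
      · rw [norm_smul]
        exact mul_le_of_le_one_left (norm_nonneg _) (IsUltrametricDist.norm_natCast_le_one k n)
      · exact (norm_mul_le _ _).trans
          ((mul_le_of_le_one_right (norm_nonneg _) hx).trans h2)

variable (k) in
/-- The sequence `(a ^ (p ^ m) - 1) / p ^ m`. -/
noncomputable def dq (p : ℕ) (a : A) (m : ℕ) : A := ((p : k) ^ m)⁻¹ • (a ^ p ^ m - 1)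

theorem norm_pow_sub_one_le [IsUltrametricDist k] {p : ℕ} (hp : ‖(p : k)‖ < 1) {a : A}
    (ha : ‖a - 1‖ ≤ ‖(p : k)‖ ^ 2) : ‖a ^ p - 1‖ ≤ ‖(p : k)‖ * ‖a - 1‖ := by
  have hp0 := norm_nonneg (p : k)
  have h1 : ‖a - 1‖ ≤ 1 := ha.trans (pow_le_one₀ hp0 hp.le)
  obtain ⟨y, h2, h3⟩ := exists_pow_eq (k := k) (a - 1) h1 p
  have h4 : a ^ p - 1 = (p : k) • (a - 1) + (a - 1) * y := by
    rw [add_sub_cancel] at h2
    rw [h2]
    abel
  rw [h4]
  refine (IsUltrametricDist.norm_add_le_max _ _).trans (max_le (norm_smul_le _ _) ?_)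
  refine (norm_mul_le _ _).trans ?_
  rw [mul_comm]
  refine mul_le_mul_of_nonneg_right (h3.trans (ha.trans ?_)) (norm_nonneg _)
  exact pow_le_of_le_one hp0 hp.le two_ne_zero

theorem norm_pow_pow_sub_one_le [IsUltrametricDist k] {p : ℕ} (hp : ‖(p : k)‖ < 1) {a : A}
    (ha : ‖a - 1‖ ≤ ‖(p : k)‖ ^ 2) (m : ℕ) :
    ‖a ^ p ^ m - 1‖ ≤ ‖(p : k)‖ ^ m * ‖a - 1‖ := by
  have hp0 := norm_nonneg (p : k)
  induction m with
  | zero => simp
  | succ m ih =>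
    have h1 : ‖a ^ p ^ m - 1‖ ≤ ‖(p : k)‖ ^ 2 :=
      ih.trans ((mul_le_of_le_one_left (norm_nonneg _) (pow_le_one₀ hp0 hp.le)).trans ha)
    rw [pow_succ p m, pow_mul]
    refine (norm_pow_sub_one_le hp h1).trans ?_
    rw [pow_succ', mul_assoc]
    exact mul_le_mul_of_nonneg_left ih hp0

theorem norm_dq_sub_le [IsUltrametricDist k] {p : ℕ} (hp0 : (p : k) ≠ 0) (hp : ‖(p : k)‖ < 1)
    {a : A} (ha : ‖a - 1‖ ≤ ‖(p : k)‖ ^ 2) (m : ℕ) :
    ‖dq k p a (m + 1) - dq k p a m‖ ≤ ‖(p : k)‖ * ‖a - 1‖ * ‖(p : k)‖ ^ m := by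
  have hq := norm_nonneg (p : k)
  have hq0 : 0 < ‖(p : k)‖ := norm_pos_iff.2 hp0
  set b := a ^ p ^ m with hb
  have h0 := norm_pow_pow_sub_one_le hp ha m
  rw [← hb] at h0
  have h1 : ‖b - 1‖ ≤ 1 := h0.trans ((mul_le_of_le_one_left (norm_nonneg _)
    (pow_le_one₀ hq hp.le)).trans (ha.trans (pow_le_one₀ hq hp.le)))
  obtain ⟨y, h2, h3⟩ := exists_pow_eq (k := k) (b - 1) h1 p
  have h4 : dq k p a (m + 1) - dq k p a m = ((p : k) ^ (m + 1))⁻¹ • ((b - 1) * y) := by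
    rw [add_sub_cancel] at h2
    rw [dq, dq, pow_succ p m, pow_mul, ← hb, h2]
    have h5 : ((p : k) ^ m)⁻¹ • (b - 1) = ((p : k) ^ (m + 1))⁻¹ • (p : k) • (b - 1) := by
      rw [smul_smul, pow_succ (p : k), mul_inv, mul_assoc, inv_mul_cancel₀ hp0, mul_one]
    rw [h5, ← smul_sub]
    congr 1
    abel
  rw [h4, norm_smul, norm_inv, norm_pow]
  have h6 : ‖(b - 1) * y‖ ≤ (‖(p : k)‖ ^ m * ‖a - 1‖) * (‖(p : k)‖ ^ m * ‖(p : k)‖ ^ 2) := by
    refine (norm_mul_le _ _).trans (mul_le_mul h0 (h3.trans (h0.trans ?_)) (norm_nonneg _)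
      (by positivity))
    exact mul_le_mul_of_nonneg_left ha (by positivity)
  refine (mul_le_mul_of_nonneg_left h6 (by positivity)).trans (le_of_eq ?_)
  field_simp
  ring

theorem tendsto_dq_aux [IsUltrametricDist k] [CompleteSpace A] {p : ℕ} (hp0 : (p : k) ≠ 0)
    (hp : ‖(p : k)‖ < 1) {a : A} (ha : ‖a - 1‖ ≤ ‖(p : k)‖ ^ 2) :
    ∃ L : A, Tendsto (dq k p a) atTop (𝓝 L) := by
  refine cauchySeq_tendsto_of_complete (cauchySeq_of_le_geometric ‖(p : k)‖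
    (‖(p : k)‖ * ‖a - 1‖) hp fun m => ?_)
  rw [dist_comm, dist_eq_norm]
  exact norm_dq_sub_le hp0 hp ha m

open Classical in
variable (k) in
/-- The logarithm. -/
noncomputable def lg (p : ℕ) (a : A) : A :=
  if h : ∃ L : A, Tendsto (dq k p a) atTop (𝓝 L) then h.choose else 0

theorem tendsto_dq [IsUltrametricDist k] [CompleteSpace A] {p : ℕ} (hp0 : (p : k) ≠ 0)
    (hp : ‖(p : k)‖ < 1) {a : A} (ha : ‖a - 1‖ ≤ ‖(p : k)‖ ^ 2) :
    Tendsto (dq k p a) atTop (𝓝 (lg k p a)) := by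
  have h := tendsto_dq_aux (k := k) hp0 hp ha
  rw [lg, dif_pos h]
  exact h.choose_spec

theorem norm_dq_sub_le' [IsUltrametricDist k] {p : ℕ} (hp0 : (p : k) ≠ 0) (hp : ‖(p : k)‖ < 1)
    {a : A} (ha : ‖a - 1‖ ≤ ‖(p : k)‖ ^ 2) (m : ℕ) :
    ‖dq k p a m - (a - 1)‖ ≤ ‖(p : k)‖ * ‖a - 1‖ := by
  induction m with
  | zero =>
    have : dq k p a 0 = a - 1 := by simp [dq]
    rw [this, sub_self, norm_zero]
    positivity
  | succ m ih =>
    have : dq k p a (m + 1) - (a - 1) = (dq k p a (m + 1) - dq k p a m) +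
      (dq k p a m - (a - 1)) := by abel
    rw [this]
    refine (IsUltrametricDist.norm_add_le_max _ _).trans (max_le ?_ ih)
    exact (norm_dq_sub_le hp0 hp ha m).trans (mul_le_of_le_one_right (by positivity)
      (pow_le_one₀ (norm_nonneg _) hp.le))

theorem norm_lg_sub_le [IsUltrametricDist k] [CompleteSpace A] {p : ℕ} (hp0 : (p : k) ≠ 0)
    (hp : ‖(p : k)‖ < 1) {a : A} (ha : ‖a - 1‖ ≤ ‖(p : k)‖ ^ 2) :
    ‖lg k p a - (a - 1)‖ ≤ ‖(p : k)‖ * ‖a - 1‖ :=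
  le_of_tendsto ((tendsto_dq hp0 hp ha).sub_const (a - 1)).norm
    (Eventually.of_forall fun m => norm_dq_sub_le' hp0 hp ha m)

/-- The logarithm is injective at `1`. -/
theorem eq_one_of_lg [IsUltrametricDist k] [CompleteSpace A] {p : ℕ} (hp0 : (p : k) ≠ 0)
    (hp : ‖(p : k)‖ < 1) {a : A} (ha : ‖a - 1‖ ≤ ‖(p : k)‖ ^ 2) (h : lg k p a = 0) : a = 1 := by
  have h1 := norm_lg_sub_le hp0 hp ha
  rw [h, zero_sub, norm_neg] at h1
  by_contra h2
  have h3 : 0 < ‖a - 1‖ := norm_pos_iff.2 (sub_ne_zero.2 h2)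
  nlinarith

theorem tendsto_pow_pow [IsUltrametricDist k] {p : ℕ} (hp : ‖(p : k)‖ < 1) {a : A}
    (ha : ‖a - 1‖ ≤ ‖(p : k)‖ ^ 2) : Tendsto (fun m => a ^ p ^ m) atTop (𝓝 1) := by
  rw [tendsto_iff_norm_sub_tendsto_zero]
  have h1 : Tendsto (fun m => ‖(p : k)‖ ^ m * ‖a - 1‖) atTop (𝓝 (0 * ‖a - 1‖)) :=
    (tendsto_pow_atTop_nhds_zero_of_lt_one (norm_nonneg _) hp).mul_const _
  rw [zero_mul] at h1
  exact squeeze_zero (fun m => norm_nonneg _) (fun m => norm_pow_pow_sub_one_le hp ha m) h1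

end

end Pool.Agent.TBL
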