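import Pool.Agent.Lib_helper7.TB.Log

/-!
# The normed algebra of matrices over an ultrametric field (MP_97f789_ag, Theorem B)
-/

set_option autoImplicit false

namespace Pool.Agent.TBL

open Filter Topology

section

variable {k : Type*} [NontriviallyNormedField k] [IsUltrametricDist k] {n : Type*} [Fintype n]
  [DecidableEq n]

/-- Matrices with the supremum norm, over an ultrametric field. -/
noncomputable abbrev matRing (k : Type*) [NontriviallyNormedField k] [IsUltrametricDist k]
    (n : Type*) [Fintype n] [DecidableEq n] : NormedRing (Matrix n n k) :=
  { (Matrix.normedAddCommGroup : NormedAddCommGroup (Matrix n n k)),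
    (Matrix.instRing : Ring (Matrix n n k)) with
    dist_eq := fun x y => by
      exact (Matrix.normedAddCommGroup : NormedAddCommGroup (Matrix n n k)).dist_eq x y
    norm_mul_le := fun x y => by
      letI : NormedAddCommGroup (Matrix n n k) := Matrix.normedAddCommGroup
      show ‖x * y‖ ≤ ‖x‖ * ‖y‖
      rw [Matrix.norm_le_iff (by positivity)]
      intro i j
      rw [Matrix.mul_apply]
      refine IsUltrametricDist.norm_sum_le_of_forall_le_of_nonneg (by positivity) fun l _ => ?_
      rw [norm_mul]
      exact mul_le_mul (Matrix.norm_entry_le_entrywise_sup_norm x)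
        (Matrix.norm_entry_le_entrywise_sup_norm y) (norm_nonneg _) (norm_nonneg _) }

attribute [local instance] matRing

noncomputable abbrev matAlg (k : Type*) [NontriviallyNormedField k] [IsUltrametricDist k]
    (n : Type*) [Fintype n] [DecidableEq n] : NormedAlgebra k (Matrix n n k) :=
  { (Matrix.instAlgebra : Algebra k (Matrix n n k)) with
    norm_smul_le := fun r x => by
      letI : NormedAddCommGroup (Matrix n n k) := Matrix.normedAddCommGroup
      exact (Matrix.normedSpace : NormedSpace k (Matrix n n k)).norm_smul_le r x }

attribute [local instance] matAlg

theorem matUltra : IsUltrametricDist (Matrix n n k) :=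
  (inferInstance : IsUltrametricDist (n → n → k))

theorem matComplete [CompleteSpace k] :
    @CompleteSpace (Matrix n n k) (PseudoMetricSpace.toUniformSpace) :=
  (inferInstance : CompleteSpace (n → n → k))


end

end Pool.Agent.TBL
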