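import Pool.Agent.Lib_helper7.TB.Fin
import Pool.Agent.Lib_helper61.TB.Det

/-!
# Multiplicities of Tate classes (MP_97f789_ag, TB)
-/

set_option autoImplicit false

namespace Pool.Agent.TBL

open NumberField Pool.Agent.TT Pool.Agent.TB Polynomial Topology

/-- A subquotient on which a scalar multiple of `T` is the identity and the multiplicity of the
eigenvalue. -/
theorem finrank_le_of_sub {k V : Type*} [Field k] [AddCommGroup V] [Module k V]
    [FiniteDimensional k V] (T : Module.End k V) {c : k} (hc : c ≠ 0) (W₁ W₂ : Submodule k V)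
    (hT : ∀ x ∈ W₂, c • T x - x ∈ W₁) :
    Module.finrank k W₂ ≤ Module.finrank k W₁ + T.charpoly.rootMultiplicity c⁻¹ := by
  let S : Module.End k V := c • T - 1
  have hS : ∀ x, S x = c • T x - x := fun x => rfl
  have h1 := LinearMap.finrank_range_add_finrank_ker (S.domRestrict W₂)
  have h2 : Module.finrank k (LinearMap.range (S.domRestrict W₂)) ≤ Module.finrank k W₁ := by
    refine Submodule.finrank_mono ?_
    rintro y ⟨x, rfl⟩
    exact hT x x.2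
  have h3 : Module.finrank k (LinearMap.ker (S.domRestrict W₂)) ≤
      Module.finrank k (T.eigenspace c⁻¹) := by
    have h4 : ∀ x : LinearMap.ker (S.domRestrict W₂), ((x : W₂) : V) ∈ T.eigenspace c⁻¹ := by
      rintro ⟨x, hx⟩
      rw [Module.End.mem_eigenspace_iff, eq_inv_smul_iff₀ hc]
      have h5 : S x = 0 := hx
      rw [hS, sub_eq_zero] at h5
      exact h5
    let g : LinearMap.ker (S.domRestrict W₂) →ₗ[k] T.eigenspace c⁻¹ :=
      (W₂.subtype ∘ₗ (LinearMap.ker (S.domRestrict W₂)).subtype).codRestrict _ h4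
    refine LinearMap.finrank_le_finrank_of_injective (f := g) ?_
    intro x y hxy
    have := congrArg Subtype.val hxy
    exact Subtype.ext (Subtype.ext this)
  have h5 : Module.finrank k (T.eigenspace c⁻¹) ≤ T.charpoly.rootMultiplicity c⁻¹ := by
    have h6 := T.finrank_genEigenspace_le c⁻¹ 1
    exact h6
  omega

theorem maxGen_smul {k V : Type*} [Field k] [AddCommGroup V] [Module k V]
    (T : Module.End k V) {c : k} (hc : c ≠ 0) :
    (c • T - 1).maxGenEigenspace 0 = T.maxGenEigenspace c⁻¹ := by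
  ext x
  rw [Module.End.mem_maxGenEigenspace, Module.End.mem_maxGenEigenspace]
  refine exists_congr fun n => ?_
  have h1 : c • T - 1 - (0 : k) • 1 = c • (T - c⁻¹ • 1) := by
    rw [zero_smul, sub_zero, smul_sub, smul_smul, mul_inv_cancel₀ hc, one_smul]
  rw [h1, _root_.smul_pow, LinearMap.smul_apply, smul_eq_zero_iff_right (pow_ne_zero _ hc)]

theorem mult_smul {k : Type*} [NontriviallyNormedField k] {d : ℕ}
    (A : Matrix (Fin d) (Fin d) k) {c : k} (hc : c ≠ 0) :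
    mult (c • A) = A.charpoly.rootMultiplicity c⁻¹ := by
  have h1 := (Matrix.toLin' A).finrank_maxGenEigenspace_eq c⁻¹
  have h2 := (c • Matrix.toLin' A - 1).finrank_maxGenEigenspace_zero_eq
  rw [maxGen_smul _ hc, h1] at h2
  rw [Matrix.charpoly_toLin'] at h2
  have h3 : c • Matrix.toLin' A - 1 = Matrix.toLin' (c • A - 1) := by
    rw [map_sub, map_smul, Matrix.toLin'_one]
    rfl
  rw [h3, Matrix.charpoly_toLin'] at h2
  rw [mult, ← h2]

theorem mult_le_dim {k : Type*} [NontriviallyNormedField k] {d : ℕ}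
    (A : Matrix (Fin d) (Fin d) k) : mult A ≤ d := by
  have h1 := natTrailingDegree_le_natDegree (p := (A - 1).charpoly)
  rw [Matrix.charpoly_natDegree_eq_dim, Fintype.card_fin] at h1
  exact h1

theorem rootMultiplicity_prod' {k : Type*} [Field k] {ι : Type*} (s : Finset ι) (f : ι → k[X])
    (hf : ∀ i ∈ s, f i ≠ 0) (c : k) :
    (∏ i ∈ s, f i).rootMultiplicity c = ∑ i ∈ s, (f i).rootMultiplicity c := by
  classical
  induction s using Finset.induction_on with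
  | empty => simp
  | insert a s ha ih =>
    have h1 : ∀ i ∈ s, f i ≠ 0 := fun i hi => hf i (Finset.mem_insert_of_mem hi)
    rw [Finset.prod_insert ha, Finset.sum_insert ha, rootMultiplicity_mul, ih h1]
    exact mul_ne_zero (hf a (Finset.mem_insert_self a s)) (Finset.prod_ne_zero_iff.2 h1)

/-- **Tate classes at `ℓ` and multiplicities at `p`.** -/
theorem tate_mult {K : Type} [Field K] [NumberField K] [Algebra K Qbar] {E : Type} [Field E]
    {p ℓ : ℕ} [Fact p.Prime] [Fact ℓ.Prime] (ip : E →+* ℂ_[p]) (il : E →+* PadicAlgCl ℓ) {r : ℕ}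
    (d : Fin r → ℕ) (ρ : (i : Fin r) → (Qbar ≃ₐ[K] Qbar) →* Matrix (Fin (d i)) (Fin (d i)) ℂ_[p])
    (hc : ∀ i, Continuous (ρ i)) {V : Type} [AddCommGroup V] [Module (PadicAlgCl ℓ) V]
    [Module.Finite (PadicAlgCl ℓ) V]
    (π : Representation (PadicAlgCl ℓ) (Qbar ≃ₐ[K] Qbar) V) (hcomp : Compatible ip il d ρ π)
    (j : ℕ) (H : Subgroup (Qbar ≃ₐ[K] Qbar)) (hH : IsOpen (H : Set (Qbar ≃ₐ[K] Qbar)))
    (W₁ W₂ : Submodule (PadicAlgCl ℓ) V)
    (hT : ∀ s ∈ H, ∀ x ∈ W₂, cyc ℓ s ^ j • π s x - x ∈ W₁) :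
    ∀ h ∈ H, Module.finrank (PadicAlgCl ℓ) W₂ ≤ Module.finrank (PadicAlgCl ℓ) W₁ +
      ∑ i, mult (cycC p h ^ j • ρ i h) := by
  intro h hh
  obtain ⟨B, hB⟩ := hcomp
  have hcont : ∀ i, Continuous fun s : Qbar ≃ₐ[K] Qbar =>
      cf (mult (cycC p h ^ j • ρ i h)) (cycC p s ^ j • ρ i s) := by
    intro i
    have h1 : Continuous (fun s : Qbar ≃ₐ[K] Qbar => cycC p s ^ j • ρ i s) :=
      ((cycC_continuous (K := K) (p := p)).pow j).smul (hc i)
    exact (differentiable_cf (k := ℂ_[p]) (n := Fin (d i))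
      (mult (cycC p h ^ j • ρ i h))).continuous.comp h1
  have hU : {s : Qbar ≃ₐ[K] Qbar | s ∈ H ∧
      ∀ i, cf (mult (cycC p h ^ j • ρ i h)) (cycC p s ^ j • ρ i s) ≠ 0} ∈ 𝓝 h := by
    apply Filter.inter_mem
    · exact hH.mem_nhds hh
    · have h2 : IsOpen (⋂ i, {s : Qbar ≃ₐ[K] Qbar |
          cf (mult (cycC p h ^ j • ρ i h)) (cycC p s ^ j • ρ i s) ≠ 0}) :=
        isOpen_iInter_of_finite fun i => isOpen_ne.preimage (hcont i)
      have h3 : (⋂ i, {s : Qbar ≃ₐ[K] Qbar |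
          cf (mult (cycC p h ^ j • ρ i h)) (cycC p s ^ j • ρ i s) ≠ 0}) =
          {s : Qbar ≃ₐ[K] Qbar | ∀ i,
            cf (mult (cycC p h ^ j • ρ i h)) (cycC p s ^ j • ρ i s) ≠ 0} := by
        ext s
        simp
      rw [h3] at h2
      exact h2.mem_nhds fun i => cf_mult_ne_zero _
  have hU' : (fun s : Qbar ≃ₐ[K] Qbar => s⁻¹) ⁻¹' {s : Qbar ≃ₐ[K] Qbar | s ∈ H ∧
      ∀ i, cf (mult (cycC p h ^ j • ρ i h)) (cycC p s ^ j • ρ i s) ≠ 0} ∈ 𝓝 h⁻¹ := by
    refine (continuous_inv.continuousAt (x := h⁻¹)).preimage_mem_nhds ?_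
    rwa [inv_inv]
  obtain ⟨q, hq, hqB, Q, hQ, hqQ, σ, ⟨hσH, hσ0⟩, hσ⟩ := fb_dense h⁻¹ _ hU' (B ∪ {p, ℓ})
  rw [Finset.mem_union, not_or, Finset.mem_insert, Finset.mem_singleton, not_or] at hqB
  obtain ⟨hqB, hqp, hql⟩ := hqB
  obtain ⟨f, hf1, hf2⟩ := hB q hq hqB Q hQ hqQ σ hσ
  have hqE : ∀ (k : Type) [Field k] [CharZero k], (q : k) ^ j ≠ 0 := fun k _ _ =>
    pow_ne_zero _ (by exact_mod_cast hq.ne_zero)
  have hcC : cycC p σ⁻¹ ^ j = ((q : ℂ_[p]) ^ j)⁻¹ := by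
    have h1 := cycC_mul (p := p) σ⁻¹ σ
    rw [inv_mul_cancel, cycC_one, cycC_frob hq (Ne.symm hqp) hQ hqQ hσ] at h1
    rw [← inv_pow, eq_inv_of_mul_eq_one_left h1.symm]
  have hcl : cyc ℓ σ⁻¹ ^ j = ((q : PadicAlgCl ℓ) ^ j)⁻¹ := by
    have h1 : cyc ℓ σ⁻¹ * cyc ℓ σ = 1 := by
      have h2 := cycC_mul (p := ℓ) σ⁻¹ σ
      rw [inv_mul_cancel, cycC_one] at h2
      have h3 : ∀ τ : Qbar ≃ₐ[K] Qbar, cycC ℓ τ = algebraMap (PadicAlgCl ℓ) ℂ_[ℓ] (cyc ℓ τ) := by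
        intro τ
        rw [cycC, cyc, ← IsScalarTower.algebraMap_apply]
      rw [h3, h3, ← map_mul] at h2
      have h4 : (algebraMap (PadicAlgCl ℓ) ℂ_[ℓ]) (cyc ℓ σ⁻¹ * cyc ℓ σ) =
          algebraMap (PadicAlgCl ℓ) ℂ_[ℓ] 1 := by rw [← h2, map_one]
      exact (algebraMap (PadicAlgCl ℓ) ℂ_[ℓ]).injective h4
    rw [cyc_frob hq (Ne.symm hql) hQ hqQ hσ] at h1
    rw [← inv_pow, eq_inv_of_mul_eq_one_left h1]
  have h1 : Module.finrank (PadicAlgCl ℓ) W₂ ≤ Module.finrank (PadicAlgCl ℓ) W₁ +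
      (π σ⁻¹).charpoly.rootMultiplicity (((q : PadicAlgCl ℓ) ^ j)⁻¹)⁻¹ := by
    refine finrank_le_of_sub (π σ⁻¹) (inv_ne_zero (hqE _)) W₁ W₂ fun x hx => ?_
    rw [← hcl]
    exact hT σ⁻¹ hσH x hx
  rw [inv_inv] at h1
  have h2 : (q : PadicAlgCl ℓ) ^ j = il ((q : E) ^ j) := by
    rw [map_pow, map_natCast]
  have h3 : (q : ℂ_[p]) ^ j = ip ((q : E) ^ j) := by
    rw [map_pow, map_natCast]
  rw [hf2, h2, ← eq_rootMultiplicity_map il.injective, eq_rootMultiplicity_map ip.injective,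
    ← h3, ← hf1, rootMultiplicity_prod' _ _ (fun i _ => (Matrix.charpoly_monic _).ne_zero)] at h1
  refine h1.trans (Nat.add_le_add_left (Finset.sum_le_sum fun i _ => ?_) _)
  have h4 := mult_smul (ρ i σ⁻¹) (c := ((q : ℂ_[p]) ^ j)⁻¹) (inv_ne_zero (hqE _))
  rw [inv_inv] at h4
  rw [← h4, ← hcC]
  exact mult_le (hσ0 i)

end Pool.Agent.TBL
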