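import Pool.Agent.Lib_helper7.TB.Lie

/-!
# Minimal multiplicity of the eigenvalue one and the conclusion (MP_97f789_ag, TB)
-/

set_option autoImplicit false

namespace Pool.Agent.TBL

open Filter Topology Polynomial

section

variable {k : Type*} [NontriviallyNormedField k] [IsUltrametricDist k] [CompleteSpace k]
  {n : Type*} [Fintype n] [DecidableEq n]

attribute [local instance] matRing matAlg matUltra matComplete

variable {G : Type*} [Group G] (A : G →* Matrix n n k) (N : Subgroup G)

/-- The multiplicity of the eigenvalue `1`. -/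
noncomputable def mult (M : Matrix n n k) : ℕ := (M - 1).charpoly.natTrailingDegree

theorem cf_eq_zero {M : Matrix n n k} {i : ℕ} (h : i < mult M) : cf i M = 0 :=
  coeff_eq_zero_of_lt_natTrailingDegree h

theorem cf_mult_ne_zero (M : Matrix n n k) : cf (mult M) M ≠ 0 := by
  have h : (M - 1).charpoly ≠ 0 := (Matrix.charpoly_monic _).ne_zero
  exact trailingCoeff_nonzero_iff_nonzero.2 h

theorem mult_le {M : Matrix n n k} {i : ℕ} (h : cf i M ≠ 0) : mult M ≤ i :=
  natTrailingDegree_le_of_ne_zero h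

theorem mult_pos {M : Matrix n n k} (h : (1 - M).det = 0) : 1 ≤ mult M := by
  rw [Nat.one_le_iff_ne_zero]
  intro h0
  refine cf_mult_ne_zero M ?_
  rw [h0, cf]
  have h1 := Matrix.det_eq_sign_charpoly_coeff (M - 1)
  have h2 : (M - 1).det = 0 := by
    rw [← neg_sub, Matrix.det_neg, h, mul_zero]
  rw [h2] at h1
  have h3 : ((-1 : k) ^ Fintype.card n) ≠ 0 := pow_ne_zero _ (by simp)
  exact (mul_eq_zero.1 h1.symm).resolve_left h3

theorem fderiv_cf_eq_zero {p : ℕ} (hp0 : (p : k) ≠ 0) (hp : ‖(p : k)‖ < 1)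
    (hN : ∀ h ∈ N, ‖A h - 1‖ ≤ ‖(p : k)‖ ^ 2) {m : ℕ} {g : G}
    (h0 : ∀ h ∈ N, cf m (A (h * g)) = 0) {x : Matrix n n k} (hx : x ∈ sp A N p) :
    fderiv k (cf m : Matrix n n k → k) (A g) (x * A g) = 0 := by
  induction hx using Submodule.span_induction with
  | mem x hx =>
    obtain ⟨h, hh, rfl⟩ := hx
    have hf : HasFDerivWithinAt (cf m : Matrix n n k → k)
        (fderiv k (cf m : Matrix n n k → k) (A g)) Set.univ (A g) :=
      ((differentiable_cf (k := k) (n := n) m (A g)).hasFDerivAt).hasFDerivWithinAt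
    have h1 : Tendsto (fun j => (A h ^ p ^ j - 1) * A g) atTop (𝓝 0) := by
      have := ((tendsto_pow_pow (k := k) hp (hN h hh)).sub_const (1 : Matrix n n k)).mul_const (A g)
      rwa [sub_self, zero_mul] at this
    have h2 : Tendsto (fun j => ((p : k) ^ j)⁻¹ • ((A h ^ p ^ j - 1) * A g)) atTop
        (𝓝 (lg k p (A h) * A g)) := by
      refine ((tendsto_dq (k := k) hp0 hp (hN h hh)).mul_const (A g)).congr fun j => ?_
      rw [dq, smul_mul_assoc]
    have h3 := hf.lim h1 (Eventually.of_forall fun _ => trivial) h2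
    refine tendsto_nhds_unique h3 (tendsto_const_nhds.congr fun j => ?_)
    have h4 : A g + (A h ^ p ^ j - 1) * A g = A (h ^ p ^ j * g) := by
      rw [map_mul, map_pow, sub_mul, one_mul]
      abel
    have h5 := h0 1 N.one_mem
    rw [one_mul] at h5
    rw [h4, h0 _ (N.pow_mem hh _), h5, sub_zero, smul_zero]
  | zero => rw [zero_mul]; exact map_zero _
  | add x y _ _ hx hy => rw [add_mul, map_add, hx, hy, add_zero]
  | smul c x _ hx => rw [smul_mul_assoc, map_smul, hx, smul_zero]

/-- If the multiplicity of the eigenvalue `1` is constant and positive on a coset, the identity is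
not in the span of the logarithms. -/
theorem one_not_mem [CharZero k] {p : ℕ} (hp0 : (p : k) ≠ 0) (hp : ‖(p : k)‖ < 1)
    (hN : ∀ h ∈ N, ‖A h - 1‖ ≤ ‖(p : k)‖ ^ 2) {g : G} (hg : 1 ≤ mult (A g))
    (h0 : ∀ h ∈ N, mult (A g) ≤ mult (A (h * g))) : (1 : Matrix n n k) ∉ sp A N p := by
  intro h1
  obtain ⟨m, hm⟩ := Nat.exists_eq_add_of_le' hg
  have h2 := fderiv_cf_eq_zero A N hp0 hp hN (m := m) (g := g)
    (fun h hh => cf_eq_zero (by have := h0 h hh; omega)) h1
  rw [one_mul, fderiv_cf_self (fun i hi => cf_eq_zero (by omega))] at h2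
  rcases mul_eq_zero.1 h2 with h3 | h3
  · rw [neg_eq_zero, Nat.cast_eq_zero] at h3
    omega
  · have := cf_mult_ne_zero (A g)
    rw [hm] at this
    exact this h3

end

end Pool.Agent.TBL
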